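import Mathlib

open Filter Topology

namespace Pool.Agent.Results.MP_25f285_al.Bounded

noncomputable def wordDist {G : Type} [Group G] (S : Set G) (x y : G) : ℕ :=
  sInf {n | ∃ l : List G, (∀ s ∈ l, s ∈ S) ∧ l.length = n ∧ l.prod = x⁻¹ * y}

noncomputable def phi (t : ℕ) : ℕ :=
  sInf {m | ∃ k, k * (k + 1) * (k + 2) ≤ m ∧ (k + 2) * t ≤ (2 * k + 2) * m}

theorem phi_le {t m k : ℕ} (h1 : k * (k + 1) * (k + 2) ≤ m) (h2 : (k + 2) * t ≤ (2 * k + 2) * m) :
    phi t ≤ m := Nat.sInf_le ⟨k, h1, h2⟩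

theorem phi_spec (t : ℕ) :
    ∃ k, k * (k + 1) * (k + 2) ≤ phi t ∧ (k + 2) * t ≤ (2 * k + 2) * phi t :=
  Nat.sInf_mem (s := {m | ∃ k, k * (k + 1) * (k + 2) ≤ m ∧ (k + 2) * t ≤ (2 * k + 2) * m})
    ⟨t, 0, by simp, by simp⟩

theorem phi_self (t : ℕ) : phi t ≤ t := phi_le (k := 0) (by simp) (by simp)

theorem half {t m k : ℕ} (h : (k + 2) * t ≤ (2 * k + 2) * m) : t ≤ 2 * m := by nlinarith

theorem up {t m j k : ℕ} (h : (j + 2) * t ≤ (2 * j + 2) * m) (hjk : j ≤ k) :
    (k + 2) * t ≤ (2 * k + 2) * m := by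
  obtain ⟨c, rfl⟩ := Nat.exists_eq_add_of_le hjk
  have := half h
  nlinarith

theorem phi_half (t : ℕ) : t ≤ 2 * phi t := by
  obtain ⟨k, -, h⟩ := phi_spec t
  exact half h

theorem phi_add {r s t : ℕ} (h : r ≤ s + t) : phi r ≤ phi s + phi t := by
  obtain ⟨j, h1, h2⟩ := phi_spec s
  obtain ⟨k, h3, h4⟩ := phi_spec t
  rcases le_total j k with hjk | hjk
  · have := up h2 hjk
    exact phi_le (k := k) (by omega) (by nlinarith)
  · have := up h4 hjk
    exact phi_le (k := j) (by omega) (by nlinarith)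

theorem plateau {k t : ℕ} (h1 : 2 * k ^ 2 * (k + 2) ≤ t) (h2 : t ≤ 2 * k ^ 2 * (k + 2) + 2 * k) :
    phi t = k * (k + 1) * (k + 2) := by
  refine le_antisymm (phi_le (k := k) le_rfl (by nlinarith)) ?_
  obtain ⟨j, h3, h4⟩ := phi_spec t
  rcases le_or_gt k j with hjk | hjk
  · exact le_trans (by gcongr) h3
  · obtain ⟨i, rfl⟩ : ∃ i, k = i + 1 := ⟨k - 1, by omega⟩
    have h5 := up h4 (show j ≤ i by omega)
    refine Nat.le_of_mul_le_mul_left (c := 2 * i + 2) ?_ (by omega)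
    nlinarith

theorem word (x y : Multiplicative ℤ) :
    wordDist {Multiplicative.ofAdd 1, Multiplicative.ofAdd (-1)} x y =
      (y.toAdd - x.toAdd).natAbs := by
  have hm : (y.toAdd - x.toAdd).natAbs ∈ {n | ∃ l : List (Multiplicative ℤ), (∀ s ∈ l,
      s ∈ ({Multiplicative.ofAdd 1, Multiplicative.ofAdd (-1)} : Set _)) ∧ l.length = n ∧
      l.prod = x⁻¹ * y} := by
    rcases le_total 0 (y.toAdd - x.toAdd) with h | h
    · refine ⟨List.replicate _ (Multiplicative.ofAdd 1), by simp, List.length_replicate, ?_⟩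
      apply Multiplicative.toAdd.injective
      simp [abs_of_nonneg h]; ring
    · refine ⟨List.replicate _ (Multiplicative.ofAdd (-1)), by simp, List.length_replicate, ?_⟩
      apply Multiplicative.toAdd.injective
      simp [abs_of_nonpos h]; ring
  refine le_antisymm (Nat.sInf_le hm) (le_csInf ⟨_, hm⟩ ?_)
  rintro n ⟨l, h1, rfl, h2⟩
  have h3 : y.toAdd - x.toAdd = l.prod.toAdd := by rw [h2]; simp; ring
  rw [h3]
  clear h2 h3 hm
  induction l with
  | nil => simp
  | cons a l ih =>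
    have h4 := ih fun s hs => h1 s (List.mem_cons_of_mem _ hs)
    rw [List.prod_cons, toAdd_mul, List.length_cons]
    rcases h1 a List.mem_cons_self with rfl | rfl
    · rw [toAdd_ofAdd]; omega
    · rw [toAdd_ofAdd]; omega

theorem result : ∃ (G : Type) (_ : Group G) (S : Set G) (d : G → G → ℤ),
    S.Finite ∧ S⁻¹ = S ∧ Subgroup.closure S = ⊤ ∧
    (∀ x y, d x y = 0 ↔ x = y) ∧ (∀ x y, d x y = d y x) ∧ (∀ x y z, d x z ≤ d x y + d y z) ∧
    (∀ g x y, d (g * x) (g * y) = d x y) ∧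
    (∀ (x : G) (r : ℝ), {y | (d x y : ℝ) ≤ r}.Finite) ∧
    (∃ C : ℝ, 1 ≤ C ∧ ∀ x y, C⁻¹ * wordDist S x y - C ≤ d x y ∧ d x y ≤ C * wordDist S x y + C) ∧
    ∃ x : ℕ → G, Tendsto x atTop cofinite ∧
      ∀ y, Tendsto (fun n => ((d (x n) y - d (x n) 1 : ℤ) : ℝ)) atTop (𝓝 0) := by
  refine ⟨Multiplicative ℤ, inferInstance, {Multiplicative.ofAdd 1, Multiplicative.ofAdd (-1)},
    fun x y => phi (y.toAdd - x.toAdd).natAbs, Set.toFinite _, ?_, ?_, fun x y => ?_, fun x y => ?_,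
    fun x y z => ?_, fun g x y => ?_, fun x r => ?_, ⟨2, by norm_num, fun x y => ?_⟩,
    fun k => Multiplicative.ofAdd ((2 * k ^ 2 * (k + 2) + k : ℕ) : ℤ), ?_, fun y => ?_⟩
  · ext x; simp [or_comm]
  · rw [eq_top_iff]
    intro x _
    have : x = Multiplicative.ofAdd (1 : ℤ) ^ x.toAdd := by
      apply Multiplicative.toAdd.injective; simp
    rw [this]
    exact Subgroup.zpow_mem _ (Subgroup.subset_closure (by simp)) _
  · have h1 := phi_self (y.toAdd - x.toAdd).natAbs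
    have h2 := phi_half (y.toAdd - x.toAdd).natAbs
    rw [← Multiplicative.toAdd.injective.eq_iff]
    simp only
    omega
  · simp only
    rw [← Int.natAbs_neg, neg_sub]
  · have := phi_add (r := (z.toAdd - x.toAdd).natAbs) (s := (y.toAdd - x.toAdd).natAbs)
      (t := (z.toAdd - y.toAdd).natAbs) (by omega)
    simp only
    exact_mod_cast this
  · simp
  · refine ((Set.finite_Icc (x.toAdd - 2 * ⌈r⌉) (x.toAdd + 2 * ⌈r⌉)).preimage
      Multiplicative.toAdd.injective.injOn).subset fun y hy => ?_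
    have h2 := phi_half (y.toAdd - x.toAdd).natAbs
    have h3 : (phi (y.toAdd - x.toAdd).natAbs : ℤ) ≤ ⌈r⌉ :=
      Int.cast_le (R := ℝ).mp (le_trans hy (Int.le_ceil r))
    simp only [Set.mem_preimage, Set.mem_Icc]
    omega
  · rw [word]
    have h1 : (phi (y.toAdd - x.toAdd).natAbs : ℝ) ≤ (y.toAdd - x.toAdd).natAbs := by
      exact_mod_cast phi_self _
    have h2 : ((y.toAdd - x.toAdd).natAbs : ℝ) ≤ 2 * phi (y.toAdd - x.toAdd).natAbs := by
      exact_mod_cast phi_half _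
    have h3 : (0 : ℝ) ≤ (y.toAdd - x.toAdd).natAbs := Nat.cast_nonneg _
    simp only [Int.cast_natCast]
    constructor <;> linarith
  · rw [← Nat.cofinite_eq_atTop]
    refine Function.Injective.tendsto_cofinite (Multiplicative.ofAdd.injective.comp
      (Nat.cast_injective.comp (strictMono_nat_of_lt_succ fun k => ?_).injective))
    nlinarith [Nat.zero_le (k ^ 2), Nat.zero_le (k ^ 3)]
  · refine tendsto_const_nhds.congr' ?_
    filter_upwards [eventually_ge_atTop y.toAdd.natAbs] with k hk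
    simp only [toAdd_ofAdd, toAdd_one]
    rw [plateau (k := k) (by omega) (by omega), plateau (k := k) (by omega) (by omega)]
    simp

end Pool.Agent.Results.MP_25f285_al.Bounded
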